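import Pool.Agent.Helper15.AF.Goals4
import Pool.Agent.Helper12.CG.CGA

/-!
# Project AF, packet CAM: the analysis of the generator
-/

set_option autoImplicit false

namespace Pool.Agent.Helper27.AF

open Pool.Agent.Helper78.DT Pool.Agent.Helper78.JT Pool.Agent.Helper39.DT
open Pool.Agent.Helper63.JT Pool.Agent.Helper15.AF
open Pool.Agent.Helper78.CG (Witnessed prob coins frac)
open scoped Classical

/-- The frequency of `A` in the list of the samples, as a count of numbers of samples. -/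
theorem frac_genm (c a β e C n N : ℕ) (h : n ≤ N) (A : Set (Fin n → Bool)) :
    frac (genm c a β e C N) A =
      ((((List.range (znm c a β e C N)).filter fun i =>
        decide ((fun v : Fin n => bitm c a β e (lg N) i v) ∈ A)).length : ℕ) : ℝ) /
        (znm c a β e C N : ℕ) := by
  unfold frac genm
  rw [List.filter_map, List.length_map, List.length_map, List.length_range]
  congr 3
  apply List.filter_congr
  intro i _
  simp only [Function.comp_apply]
  rw [Pool.Agent.Helper12.CG.coins_range h]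

/-- The coins depend only on the first digits. -/
theorem cnm_congr {Y : ℕ → Bool} {m P e q K : ℕ} {z h s s' : ℕ → ℕ} (hh : ∀ v, h v < K)
    (hs : ∀ i < K, s i = s' i) : cnm Y m P e q z h s = cnm Y m P e q z h s' := by
  funext v
  unfold cnm
  rw [hs _ (hh v)]

theorem Qk_pos {k : ℕ} (hk : 1 ≤ k) : 0 < Qk k := by
  unfold Qk
  have : 2 ^ 1 ≤ 2 ^ k := Nat.pow_le_pow_right (by norm_num) hk
  omega

theorem cam (hTgm : TgmStmt) (hPma : PmaStmt) (hPmb : PmbStmt) (hDgm : DgmStmt)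
    (hClm : ClmStmt) : CamStmt := by
  intro c1 c0 e
  obtain ⟨a, β, L1, h1⟩ := hPma (c0 + c1) e
  obtain ⟨C, L2, h2⟩ := hPmb (c0 + c1) a e β
  refine ⟨a, β, C, max (max L1 L2) 1, ?_⟩
  intro n N r A hnN hCert hr hL
  rw [frac_genm _ _ _ _ _ _ _ hnN]
  set c := c0 + c1 with hc
  set L := lg N with hLdef
  obtain ⟨f, a', H, hWid, hF2, hF1⟩ := hClm n (c1 * L) r (C0j c L) A hCert
  obtain ⟨hP, hK0, hKP, hq0, hδ, hε, hμ, hJ, hkV, hkk, hT1, hT2, hVV, hD, hch, hη, hη1, hκ, hηt,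
    herr⟩ := h1 L (le_trans (le_trans (le_max_left _ _) (le_max_left _ _)) hL) r hr
  obtain ⟨n1, n2⟩ := two_pow_lg N
  rw [← hLdef] at n1 n2
  have hL1 : 1 ≤ L := le_trans (le_max_right _ _) hL
  have hcap : 2 ^ (C * L) ≤ (4 * N + 4) ^ C := by
    rw [mul_comm, pow_mul]
    exact Nat.pow_le_pow_left n2 C
  have hZ := h2 L (le_trans (le_trans (le_max_right _ _) (le_max_left _ _)) hL) _ hcap
  have hzn : znm c a β e C N = ZZm c a β e L := hZ
  have hZl : 0 < Zl (Rj a e L) (dj a e L) (e + 1) :=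
    Zl_pos fun j hj => (hch j (by omega)).1.pos
  have hQ0 : 0 < Qk (8 * L) := Qk_pos hkk
  have hZpos : 0 < ZZm c a β e L := by
    unfold ZZm
    exact Nat.mul_pos (Nat.mul_pos (pow_pos hP.pos _) (Nat.mul_pos (Nat.mul_pos hQ0 hQ0) hZl))
      (pow_pos (Nat.mul_pos hq0 (Nat.mul_pos hq0 hP.pos)) _)
  have hpt : ∀ A' : ℕ → ℕ, ∀ v, pt (Pj (cM c) L) (Kj (cM c) a β e L) (tj a e L) L A' v <
      Kj (cM c) a β e L := fun A' v => Nat.mod_lt _ hK0
  set G : (ℕ → ℕ) → ℕ → ℕ → ℕ → (ℕ → ℕ) → Bool := fun A' α1 β1 θ s'' =>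
    decide ((fun v : Fin n => cnm (Yf (8 * L) α1 β1) (mj a e L) (Pj (cM c) L) L (qj (cM c) L)
        (fun x => ch (Rj a e L) (dj a e L) θ x (e + 1))
        (pt (Pj (cM c) L) (Kj (cM c) a β e L) (tj a e L) L A') s'' v) ∈ A) with hG
  have hdig := hDgm (Pj (cM c) L) (Zl (Rj a e L) (dj a e L) (e + 1)) (Qk (8 * L))
    (qj (cM c) L * (qj (cM c) L * Pj (cM c) L)) (tj a e L + 2) (Kj (cM c) a β e L) G (by
      intro A1 A2 s1 s2 α1 β1 θ e1 e2
      simp only [hG]
      rw [pt_congr e1, cnm_congr (hpt A2) e2]) (by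
      intro A1 s1 α1 β1 θ
      simp only [hG]
      have e1 : ∀ x, ch (Rj a e L) (dj a e L) (θ % Zl (Rj a e L) (dj a e L) (e + 1)) x (e + 1) =
          ch (Rj a e L) (dj a e L) θ x (e + 1) := fun x => ch_mod _ _ _ _ _ _ le_rfl
      simp only [e1])
  set ρ' : ℝ := pr fun z : (Fin (tj a e L + 2) → Fin (Pj (cM c) L)) ×
    (Fin (Qk (8 * L)) × Fin (Qk (8 * L))) × Fin (Zl (Rj a e L) (dj a e L) (e + 1)) ×
    (Fin (Kj (cM c) a β e L) → Fin (qj (cM c) L * (qj (cM c) L * Pj (cM c) L))) =>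
      G (ext z.1) z.2.1.1 z.2.1.2 z.2.2.1 (ext z.2.2.2) = true
    with hρ'
  have hfr : ((((List.range (znm c a β e C N)).filter fun i =>
        decide ((fun v : Fin n => bitm c a β e L i v) ∈ A)).length : ℕ) : ℝ) /
        (znm c a β e C N : ℕ) = ρ' := by
    rw [hzn]
    have hZr : ((ZZm c a β e L : ℕ) : ℝ) ≠ 0 := by exact_mod_cast hZpos.ne'
    rw [div_eq_iff hZr, mul_comm]
    exact hdig
  rw [hfr]
  have htot := hTgm n (WW (cM c) L) (Kj (cM c) a β e L) (tj a e L) L (Pj (cM c) L) (qj (cM c) L) r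
    (r * C0j c L) (sj a e L) (Dj a e L) (mj a e L) (8 * L) (kVj c L) (2 ^ (L + 2)) (Jj c L) e
    (Rj a e L) (dj a e L) (kj a e L) (Mj (cM c) a e L) (ηp a) (κj a e L) (δj (cM c) L)
    (εj a e L) (μj c L) H f a'
    (fun i x hx => (hWid i x hx).trans (by
      unfold WW cM
      exact Nat.mul_le_mul_right _ (by omega)))
    hP hK0 hKP hq0 (by omega) hδ hε hμ hJ hkV hkk (by omega) hT2 hVV hD rfl (fun j => rfl)
    hch hη hη1 hκ hηt
  set ρ : ℝ := pr fun z : (Fin (tj a e L + 2) → Fin (Pj (cM c) L)) ×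
    (Fin (Qk (8 * L)) × Fin (Qk (8 * L))) × Fin (Zl (Rj a e L) (dj a e L) (e + 1)) ×
    (Fin (Kj (cM c) a β e L) → Fin (qj (cM c) L * (qj (cM c) L * Pj (cM c) L))) =>
      H (fun i => ev ((f i).filter (bal (Kj (cM c) a β e L) (tj a e L)
          (pt (Pj (cM c) L) (Kj (cM c) a β e L) (tj a e L) L (ext z.1)))) fun v =>
          cnm (Yf (8 * L) z.2.1.1 z.2.1.2) (mj a e L) (Pj (cM c) L) L (qj (cM c) L)
            (fun x => ch (Rj a e L) (dj a e L) z.2.2.1 x (e + 1))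
            (pt (Pj (cM c) L) (Kj (cM c) a β e L) (tj a e L) L (ext z.1)) (ext z.2.2.2) v)
        (fun i => dot (a' i) fun v =>
          cnm (Yf (8 * L) z.2.1.1 z.2.1.2) (mj a e L) (Pj (cM c) L) L (qj (cM c) L)
            (fun x => ch (Rj a e L) (dj a e L) z.2.2.1 x (e + 1))
            (pt (Pj (cM c) L) (Kj (cM c) a β e L) (tj a e L) L (ext z.1)) (ext z.2.2.2) v) = true
    with hρ
  have hle : ρ ≤ ρ' := by
    rw [hρ, hρ']
    refine pr_mono fun z hz => ?_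
    have h3 := hF2 _ _ hz
    simp only [hG]
    exact decide_eq_true h3
  have hL1r : (1 : ℝ) ≤ L := by exact_mod_cast hL1
  have hlc : (0 : ℝ) < (L : ℝ) ^ c0 := pow_pos (by linarith) c0
  have hLc : (L : ℝ) ^ c0 ≤ (L : ℝ) ^ c := pow_le_pow_right₀ hL1r (by omega)
  have hbd : 1 / (2 * (L : ℝ) ^ c) ≤ 1 / (L : ℝ) ^ c0 :=
    one_div_le_one_div_of_le hlc (by linarith)
  have h5 := (abs_le.1 htot).1
  linarith

end Pool.Agent.Helper27.AF
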